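import Pool.Agent.ETCF.QS

/-!
# Value groups of order 8: the irregular case (helper73, note 1306; Lean: helper97)

`S` is a quaternionic data structure with `e = 0`, `E = V_p` has order at most 8 and is not
commutative, and the nonzero value of `q` on `E` is not a value of `q (p, .)`.  Then some
`V_e`, `e` in `E`, is contained in `E` (hence commutative).
-/

set_option autoImplicit false
set_option linter.unnecessarySeqFocus false
set_option linter.unusedVariables false
set_option linter.unusedSimpArgs false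
set_option linter.unusedSectionVars false

namespace Pool.Agent.ETCI

open Pool.Agent.Helper58.PLine (QData)
open Pool.Agent.ETCP

variable {V Q : Type} [AddCommGroup V] [Module (ZMod 2) V] {S : QData V Q}

/-- the trick (0) of note 1306 -/
theorem trick (he : S.e = 0) {p e k z : V} (hpe : C S p e) (hpk : C S p k)
    (hz : C S (e + p) z) :
    ∃ v g, C S e v ∧ C S p g ∧ S.q g (z + v) = S.q e k := by
  have hpp : C S p p := C.self he p
  have a1 : S.q (k + z) (e + p) = S.q e k := by
    rw [S.symm]
    have b1 : S.q (e + p) (k + z) = S.q (e + p) k := q_eq (hz.of_eq rfl (eo (by abel_nf <;> simp only [ch2, ch3, ch4, ch5, ch6, add_zero, zero_add])))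
    have b2 : S.q (e + p) k = S.q e k := q_eq' (hpk.of_eq (eo (by abel_nf <;> simp only [ch2, ch3, ch4, ch5, ch6, add_zero, zero_add])) rfl)
    rw [b1, b2]
  obtain ⟨t, h1, h2, h3⟩ := link (a1.trans rfl : S.q (k + z) (e + p) = S.q e k)
  -- `t = k + v`
  have hv : C S e (k + t) := h2
  have b3 : S.q (k + z) t = S.q e k := by
    rw [← a1]
    exact q_eq (h1.of_eq rfl (eo (by abel_nf <;> simp only [ch2, ch3, ch4, ch5, ch6, add_zero, zero_add])))
  have b4 : S.q (k + z) (z + (k + t)) = S.q e k := by
    rw [← b3]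
    exact q_eq ((C.self he (k + z)).of_eq rfl (eo (by abel_nf <;> simp only [ch2, ch3, ch4, ch5, ch6, add_zero, zero_add])))
  -- the element `h`
  have c1 : S.q (p + z + (k + t)) (e + p) = S.q p (k + t) := by
    rw [S.symm]
    have b5 : S.q (e + p) (p + z + (k + t)) = S.q (e + p) (p + (k + t)) :=
      q_eq (hz.of_eq rfl (eo (by abel_nf <;> simp only [ch2, ch3, ch4, ch5, ch6, add_zero, zero_add])))
    have b6 : S.q (e + p) (p + (k + t)) = S.q p (p + (k + t)) :=
      q_eq' ((hpe.symm.add hv).of_eq (eo (by abel_nf <;> simp only [ch2, ch3, ch4, ch5, ch6, add_zero, zero_add])) rfl)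
    have b7 : S.q p (p + (k + t)) = S.q p (k + t) := q_eq (hpp.of_eq rfl (eo (by abel_nf <;> simp only [ch2, ch3, ch4, ch5, ch6, add_zero, zero_add])))
    rw [b5, b6, b7]
  obtain ⟨t', h4, h5, h6⟩ := link c1
  have d1 : C S (z + (k + t)) t' := h6.of_eq (eo (by abel_nf <;> simp only [ch2, ch3, ch4, ch5, ch6, add_zero, zero_add])) rfl
  refine ⟨k + t, k + ((k + t) + t'), hv, hpk.add h5, ?_⟩
  rw [← b4]
  rw [S.symm (k + z), S.symm (k + ((k + t) + t'))]
  exact q_eq ((d1.add (C.self he (z + (k + t)))).of_eq rfl (eo (by abel_nf <;> simp only [ch2, ch3, ch4, ch5, ch6, add_zero, zero_add])))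

/-- the eight elements of `<p, a, b>` -/
def In8 (p a b x : V) : Prop :=
  x = 0 ∨ x = p ∨ x = a ∨ x = a + p ∨ x = b ∨ x = b + p ∨ x = a + b ∨ x = a + b + p

variable (S) in
/-- `V_p` has order at most 8, is not commutative, and is irregular -/
structure Eight (p : V) : Prop where
  he : S.e = 0
  hp : p ≠ 0
  gen : ∀ a b, C S p a → C S p b → ¬ C S a b → ∀ x, C S p x → In8 p a b x
  irr : ∀ a b, C S p a → C S p b → ¬ C S a b → ∀ t, S.q p t ≠ S.q a b

variable (S) in
/-- `q (b, z) in {0, d}` for all `z in V_a` -/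
def G (a b : V) : Prop := ∀ z, C S a z → C S b z ∨ C S b (z + a)

namespace Eight

variable {p : V} (X : Eight S p)
include X

theorem dich0 {a b z : V} (ha : C S p a) (hb : C S p b) (hab : ¬ C S a b) (hz : C S a z) :
    (C S b z ∨ C S b (z + a)) ∨ (C S (b + p) z ∨ C S (b + p) (z + a)) := by
  have hpp : C S p p := C.self X.he p
  have hpe : C S p (a + p) := ha.add hpp
  have hek : ¬ C S (a + p) b := fun h => hab ((h.add' hb).of_eq (eo (by abel_nf <;> simp only [ch2, ch3, ch4, ch5, ch6, add_zero, zero_add])) rfl)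
  have hz' : C S ((a + p) + p) z := hz.of_eq (eo (by abel_nf <;> simp only [ch2, ch3, ch4, ch5, ch6, add_zero, zero_add])) rfl
  obtain ⟨v, g, hv, hg, hq⟩ := trick X.he hpe hb hz'
  have hirr := X.irr _ _ hpe hb hek
  have hd0 : ¬ C S g (z + v) := by
    intro h
    exact hek ((show S.q (a + p) b = S.z from by rw [← hq]; exact h))
  -- `q (e, z + v) = q (p, z)`
  have n1 : g ≠ a + p := by
    rintro rfl
    apply hirr z
    rw [← hq]
    have b1 : S.q (a + p) (z + v) = S.q (a + p) z := q_eq (hv.of_eq rfl (eo (by abel_nf <;> simp only [ch2, ch3, ch4, ch5, ch6, add_zero, zero_add])))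
    have b2 : S.q (a + p) z = S.q p z := q_eq' (hz.of_eq (eo (by abel_nf <;> simp only [ch2, ch3, ch4, ch5, ch6, add_zero, zero_add])) rfl)
    rw [b1, b2]
  have n2 : g ≠ a := by
    rintro rfl
    apply hirr v
    rw [← hq]
    have b1 : S.q g (z + v) = S.q g v := q_eq (hz.of_eq rfl (eo (by abel_nf <;> simp only [ch2, ch3, ch4, ch5, ch6, add_zero, zero_add])))
    have b2 : S.q g v = S.q p v := q_eq' (hv.of_eq (eo (by abel_nf <;> simp only [ch2, ch3, ch4, ch5, ch6, add_zero, zero_add])) rfl)
    rw [b1, b2]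
  have n3 : g ≠ 0 := by
    rintro rfl
    exact hd0 (C.zero' _)
  have n4 : g ≠ p := by
    rintro rfl
    exact hirr _ hq
  -- `g` does not commute with `e`
  have hab' : ¬ C S (a + p) b := hek
  have hin := X.gen a b ha hb hab g hg
  have hgb : g = b ∨ g = b + p ∨ g = a + b ∨ g = a + b + p := by
    rcases hin with h | h | h | h | h | h | h | h
    · exact absurd h n3
    · exact absurd h n4
    · exact absurd h n2
    · exact absurd h n1
    · exact Or.inl h
    · exact Or.inr (Or.inl h)
    · exact Or.inr (Or.inr (Or.inl h))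
    · exact Or.inr (Or.inr (Or.inr h))
  have hge : S.q g (a + p) = S.q (a + p) b := by
    rw [S.symm]
    apply q_eq
    have k0 : C S (a + p) (g + b) := by
      have s1 : C S (a + p) a := (C.self X.he a).add' ha
      have s2 : C S (a + p) p := ha.symm.add' hpp
      rcases hgb with h | h | h | h
      · exact (C.zero (a + p)).of_eq rfl (by rw [h]; exact (eo (by abel_nf <;> simp only [ch2, ch3, ch4, ch5, ch6, add_zero, zero_add])))
      · exact s2.of_eq rfl (by rw [h]; exact (eo (by abel_nf <;> simp only [ch2, ch3, ch4, ch5, ch6, add_zero, zero_add])))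
      · exact s1.of_eq rfl (by rw [h]; exact (eo (by abel_nf <;> simp only [ch2, ch3, ch4, ch5, ch6, add_zero, zero_add])))
      · exact (s1.add s2).of_eq rfl (by rw [h]; exact (eo (by abel_nf <;> simp only [ch2, ch3, ch4, ch5, ch6, add_zero, zero_add])))
    exact k0
  -- `f = g + e`
  have f1 : C S g (z + v + (a + p)) := by
    rw [← q_eq_iff, hq, hge]
  have f2 : S.q g z = S.q g (v + (a + p)) := q_eq (f1.of_eq rfl (eo (by abel_nf <;> simp only [ch2, ch3, ch4, ch5, ch6, add_zero, zero_add])))
  have f3 : S.q g (v + (a + p)) = S.q (g + (a + p)) (v + (a + p)) := by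
    apply q_eq'
    exact (hv.add (C.self X.he (a + p))).of_eq (eo (by abel_nf <;> simp only [ch2, ch3, ch4, ch5, ch6, add_zero, zero_add])) rfl
  have f4 : S.q g z = S.q (g + a) z := q_eq' (hz.of_eq (eo (by abel_nf <;> simp only [ch2, ch3, ch4, ch5, ch6, add_zero, zero_add])) rfl)
  obtain ⟨t, h1, h2, h3⟩ := link ((f4.symm.trans f2).trans f3)
  -- `t in E`
  have ht : C S p t := h3.of_eq (eo (by abel_nf <;> simp only [ch2, ch3, ch4, ch5, ch6, add_zero, zero_add])) rfl
  -- `q (g, z) = q (g + a, t)`
  have f5 : C S (g + a) (z + t) := h1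
  -- `g + a` is one of `b, b + p, a + b, a + b + p`
  have hga : C S p (g + a) := hg.add ha
  -- `t` commutes with `g + a` or `t + a` commutes with it
  have f6 : C S (g + a) t ∨ C S (g + a) (t + a) := by
    have hgaa : ¬ C S a (g + a) := by
      intro h
      apply hab
      have s1 : C S a a := C.self X.he a
      have h' : C S a g := (h.add s1).of_eq rfl (eo (by abel_nf <;> simp only [ch2, ch3, ch4, ch5, ch6, add_zero, zero_add]))
      rcases hgb with h2 | h2 | h2 | h2
      · exact h'.of_eq rfl h2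
      · exact (h'.add ha.symm).of_eq rfl (by rw [h2]; exact (eo (by abel_nf <;> simp only [ch2, ch3, ch4, ch5, ch6, add_zero, zero_add])))
      · exact (h'.add s1).of_eq rfl (by rw [h2]; exact (eo (by abel_nf <;> simp only [ch2, ch3, ch4, ch5, ch6, add_zero, zero_add])))
      · exact ((h'.add s1).add ha.symm).of_eq rfl (by rw [h2]; exact (eo (by abel_nf <;> simp only [ch2, ch3, ch4, ch5, ch6, add_zero, zero_add])))
    have s3 : C S (g + a) (g + a) := C.self X.he _
    rcases X.gen a (g + a) ha hga hgaa t ht with h | h | h | h | h | h | h | h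
    · left; exact (C.zero _).of_eq rfl h.symm
    · left; exact hga.symm.of_eq rfl h.symm
    · right; exact (C.zero _).of_eq rfl (by rw [h]; exact (eo (by abel_nf <;> simp only [ch2, ch3, ch4, ch5, ch6, add_zero, zero_add])))
    · right; exact hga.symm.of_eq rfl (by rw [h]; exact (eo (by abel_nf <;> simp only [ch2, ch3, ch4, ch5, ch6, add_zero, zero_add])))
    · left; exact s3.of_eq rfl h.symm
    · left; exact (s3.add hga.symm).of_eq rfl h.symm
    · right; exact s3.of_eq rfl (by rw [h]; exact (eo (by abel_nf <;> simp only [ch2, ch3, ch4, ch5, ch6, add_zero, zero_add])))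
    · right; exact (s3.add hga.symm).of_eq rfl (by rw [h]; exact (eo (by abel_nf <;> simp only [ch2, ch3, ch4, ch5, ch6, add_zero, zero_add])))
  have f7 : C S (g + a) z ∨ C S (g + a) (z + a) := by
    rcases f6 with h | h
    · left; exact (f5.add h).of_eq rfl (eo (by abel_nf <;> simp only [ch2, ch3, ch4, ch5, ch6, add_zero, zero_add]))
    · right; exact (f5.add h).of_eq rfl (eo (by abel_nf <;> simp only [ch2, ch3, ch4, ch5, ch6, add_zero, zero_add]))
  have saz : C S a (z + a) := hz.add (C.self X.he a)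
  rcases hgb with h | h | h | h
  · left
    rcases f7 with h7 | h7
    · left; exact (h7.add' hz).of_eq (by rw [h]; exact (eo (by abel_nf <;> simp only [ch2, ch3, ch4, ch5, ch6, add_zero, zero_add]))) rfl
    · right; exact (h7.add' saz).of_eq (by rw [h]; exact (eo (by abel_nf <;> simp only [ch2, ch3, ch4, ch5, ch6, add_zero, zero_add]))) rfl
  · right
    rcases f7 with h7 | h7
    · left; exact (h7.add' hz).of_eq (by rw [h]; exact (eo (by abel_nf <;> simp only [ch2, ch3, ch4, ch5, ch6, add_zero, zero_add]))) rfl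
    · right; exact (h7.add' saz).of_eq (by rw [h]; exact (eo (by abel_nf <;> simp only [ch2, ch3, ch4, ch5, ch6, add_zero, zero_add]))) rfl
  · left
    rcases f7 with h7 | h7
    · left; exact h7.of_eq (by rw [h]; exact (eo (by abel_nf <;> simp only [ch2, ch3, ch4, ch5, ch6, add_zero, zero_add]))) rfl
    · right; exact h7.of_eq (by rw [h]; exact (eo (by abel_nf <;> simp only [ch2, ch3, ch4, ch5, ch6, add_zero, zero_add]))) rfl
  · right
    rcases f7 with h7 | h7
    · left; exact h7.of_eq (by rw [h]; exact (eo (by abel_nf <;> simp only [ch2, ch3, ch4, ch5, ch6, add_zero, zero_add]))) rfl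
    · right; exact h7.of_eq (by rw [h]; exact (eo (by abel_nf <;> simp only [ch2, ch3, ch4, ch5, ch6, add_zero, zero_add]))) rfl

theorem dich {a b : V} (ha : C S p a) (hb : C S p b) (hab : ¬ C S a b) :
    G S a b ∨ G S a (b + p) := by
  by_contra hno
  push Not at hno
  obtain ⟨h1, h2⟩ := hno
  unfold G at h1 h2
  push Not at h1 h2
  obtain ⟨z1, hz1, n1, n1'⟩ := h1
  obtain ⟨z2, hz2, n2, n2'⟩ := h2
  -- `z1` is in the second subgroup, `z2` in the first
  have k1 : C S (b + p) z1 ∨ C S (b + p) (z1 + a) := by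
    rcases X.dich0 ha hb hab hz1 with h | h
    · rcases h with h | h
      · exact absurd h n1
      · exact absurd h n1'
    · exact h
  have k2 : C S b z2 ∨ C S b (z2 + a) := by
    rcases X.dich0 ha hb hab hz2 with h | h
    · exact h
    · rcases h with h | h
      · exact absurd h n2
      · exact absurd h n2'
  rcases X.dich0 ha hb hab (hz1.add hz2) with h | h
  · rcases h with h | h
    · rcases k2 with k | k
      · exact n1 ((h.add k).of_eq rfl (eo (by abel_nf <;> simp only [ch2, ch3, ch4, ch5, ch6, add_zero, zero_add])))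
      · exact n1' ((h.add k).of_eq rfl (eo (by abel_nf <;> simp only [ch2, ch3, ch4, ch5, ch6, add_zero, zero_add])))
    · rcases k2 with k | k
      · exact n1' ((h.add k).of_eq rfl (eo (by abel_nf <;> simp only [ch2, ch3, ch4, ch5, ch6, add_zero, zero_add])))
      · exact n1 ((h.add k).of_eq rfl (eo (by abel_nf <;> simp only [ch2, ch3, ch4, ch5, ch6, add_zero, zero_add])))
  · rcases h with h | h
    · rcases k1 with k | k
      · exact n2 ((h.add k).of_eq rfl (eo (by abel_nf <;> simp only [ch2, ch3, ch4, ch5, ch6, add_zero, zero_add])))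
      · exact n2' ((h.add k).of_eq rfl (eo (by abel_nf <;> simp only [ch2, ch3, ch4, ch5, ch6, add_zero, zero_add])))
    · rcases k1 with k | k
      · exact n2' ((h.add k).of_eq rfl (eo (by abel_nf <;> simp only [ch2, ch3, ch4, ch5, ch6, add_zero, zero_add])))
      · exact n2 ((h.add k).of_eq rfl (eo (by abel_nf <;> simp only [ch2, ch3, ch4, ch5, ch6, add_zero, zero_add])))

/-- two different planes: `V_a < E` -/
theorem clash {a b d c : V} (ha : C S p a) (hb : C S p b) (hab : ¬ C S a b)
    (hd : d = b ∨ d = a + b) (hG : G S a b) (hc : C S p c) (hdc : ¬ C S d c) (hG' : G S d c)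
    (hp : p = c + a ∨ p = c + b ∨ p = c + (a + b)) {x : V} (hx : C S a x) : C S p x := by
  have saa := C.self X.he a
  have sbb := C.self X.he b
  -- `x' = x` or `x + a` commutes with `b`
  obtain ⟨x', hx'a, hx'b, hxx⟩ : ∃ x', C S a x' ∧ C S b x' ∧ (C S p x' → C S p x) := by
    rcases hG x hx with h | h
    · exact ⟨x, hx, h, id⟩
    · exact ⟨x + a, hx.add saa, h, fun h' => (h'.add ha).of_eq rfl (eo (by abel_nf <;> simp only [ch2, ch3, ch4, ch5, ch6, add_zero, zero_add]))⟩
  apply hxx
  have hx'd : C S d x' := by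
    rcases hd with rfl | rfl
    · exact hx'b
    · exact hx'a.add' hx'b
  have hpd : C S p d := by
    rcases hd with rfl | rfl
    · exact hb
    · exact ha.add hb
  -- `q (p, x') = q (c, x')`
  have hpc : C S (p + c) x' := by
    rcases hp with h | h | h
    · exact hx'a.of_eq (by rw [h]; exact (eo (by abel_nf <;> simp only [ch2, ch3, ch4, ch5, ch6, add_zero, zero_add]))) rfl
    · exact hx'b.of_eq (by rw [h]; exact (eo (by abel_nf <;> simp only [ch2, ch3, ch4, ch5, ch6, add_zero, zero_add]))) rfl
    · exact (hx'a.add' hx'b).of_eq (by rw [h]; exact (eo (by abel_nf <;> simp only [ch2, ch3, ch4, ch5, ch6, add_zero, zero_add]))) rfl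
  rcases hG' x' hx'd with h | h
  · exact (hpc.add' h).of_eq (eo (by abel_nf <;> simp only [ch2, ch3, ch4, ch5, ch6, add_zero, zero_add])) rfl
  · exfalso
    -- `q (c, x') = q (c, d)`
    have e1 : S.q c x' = S.q c d := q_eq h
    have e2 : S.q p x' = S.q c x' := q_eq' hpc
    exact X.irr d c hpd hc hdc x' (by rw [e2, e1, S.symm])

/-- **Theorem.** Some `V_e`, `e in E - {0, p}`, is contained in `E`. -/
theorem exists_small {a b : V} (ha : C S p a) (hb : C S p b) (hab : ¬ C S a b) :
    ∃ e, C S p e ∧ e ≠ 0 ∧ e ≠ p ∧ ∀ x, C S e x → C S p x := by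
  have hpp : C S p p := C.self X.he p
  -- elements which do not commute with something in `E` are not `0`, `p`
  have good : ∀ e k, C S p k → ¬ C S e k → e ≠ 0 ∧ e ≠ p := by
    intro e k hk h
    refine ⟨?_, ?_⟩
    · rintro rfl
      exact h (C.zero' _)
    · rintro rfl
      exact h hk
  -- WLOG `G a k`
  obtain ⟨k, hk, hak, hG⟩ : ∃ k, C S p k ∧ ¬ C S a k ∧ G S a k := by
    rcases X.dich ha hb hab with h | h
    · exact ⟨b, hb, hab, h⟩
    · refine ⟨b + p, hb.add hpp, fun h' => hab ((h'.add ha.symm).of_eq rfl (eo (by abel_nf <;> simp only [ch2, ch3, ch4, ch5, ch6, add_zero, zero_add]))), h⟩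
  have hka : ¬ C S k a := fun h => hak h.symm
  have hap : C S p (a + p) := ha.add hpp
  have hkp : C S p (k + p) := hk.add hpp
  have hapk : ¬ C S (a + p) k := fun h => hak ((h.add' hk).of_eq (eo (by abel_nf <;> simp only [ch2, ch3, ch4, ch5, ch6, add_zero, zero_add])) rfl)
  have hkap : ¬ C S k (a + p) := fun h => hapk h.symm
  rcases X.dich hk ha hka with h1 | h1
  swap
  · -- `G k (a + p)`
    refine ⟨a, ha, (good a k hk hak).1, (good a k hk hak).2, fun x hx => ?_⟩
    exact X.clash ha hk hak (Or.inl rfl) hG hap hkap h1 (Or.inl (eo (by abel_nf <;> simp only [ch2, ch3, ch4, ch5, ch6, add_zero, zero_add]))) hx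
  -- `G k a`
  rcases X.dich hap hk hapk with h2 | h2
  · -- `G (a + p) k`
    refine ⟨a + p, hap, (good _ k hk hapk).1, (good _ k hk hapk).2, fun x hx => ?_⟩
    exact X.clash hap hk hapk (Or.inl rfl) h2 ha hka h1 (Or.inl (eo (by abel_nf <;> simp only [ch2, ch3, ch4, ch5, ch6, add_zero, zero_add]))) hx
  · -- `G (a + p) (k + p)`
    have hakp : C S p (a + k) := ha.add hk
    have n1 : ¬ C S (a + k) a := fun h => hka ((h.add' (C.self X.he a)).of_eq (eo (by abel_nf <;> simp only [ch2, ch3, ch4, ch5, ch6, add_zero, zero_add])) rfl)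
    have n2 : ¬ C S (a + k) (a + p) := fun h => n1 ((h.add hakp.symm).of_eq rfl (eo (by abel_nf <;> simp only [ch2, ch3, ch4, ch5, ch6, add_zero, zero_add])))
    have n3 : ¬ C S (a + p) (k + p) := fun h => hapk ((h.add (hap.symm)).of_eq rfl (eo (by abel_nf <;> simp only [ch2, ch3, ch4, ch5, ch6, add_zero, zero_add])))
    rcases X.dich hakp ha n1 with h3 | h3
    · refine ⟨a + p, hap, (good _ k hk hapk).1, (good _ k hk hapk).2, fun x hx => ?_⟩
      exact X.clash (d := a + k) hap hkp n3 (Or.inr (eo (by abel_nf <;> simp only [ch2, ch3, ch4, ch5, ch6, add_zero, zero_add]))) h2 ha n1 h3 (Or.inl (eo (by abel_nf <;> simp only [ch2, ch3, ch4, ch5, ch6, add_zero, zero_add]))) hx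
    · refine ⟨a, ha, (good a k hk hak).1, (good a k hk hak).2, fun x hx => ?_⟩
      exact X.clash (d := a + k) ha hk hak (Or.inr rfl) hG hap n2 h3 (Or.inl (eo (by abel_nf <;> simp only [ch2, ch3, ch4, ch5, ch6, add_zero, zero_add]))) hx

end Eight

end Pool.Agent.ETCI
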