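import Pool.Agent.ETCI.Eight

/-!
# Value groups of order 8 in quaternionic structures: the irregular case (helper97)
-/

set_option autoImplicit false
set_option linter.unnecessarySeqFocus false
set_option linter.unusedVariables false
set_option linter.unusedSimpArgs false

namespace Pool.Agent.ETCI

open Pool.Agent.Helper58.PLine (QData)
open Pool.Agent.ETCP

variable {V Q : Type} [AddCommGroup V] [Module (ZMod 2) V] {S : QData V Q}

/-- the elements of `<p, a, b>` -/
noncomputable def fe (p a b : V) (t : Bool × Bool × Bool) : V :=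
  (if t.1 then p else 0) + (if t.2.1 then a else 0) + (if t.2.2 then b else 0)

theorem fe_mem {p a b : V} (hpp : C S p p) (ha : C S p a) (hb : C S p b)
    (t : Bool × Bool × Bool) : C S p (fe p a b t) := by
  obtain ⟨i, j, l⟩ := t
  unfold fe
  apply C.add
  · apply C.add
    · cases i
      · simpa using C.zero p
      · simpa using hpp
    · cases j
      · simpa using C.zero p
      · simpa using ha
  · cases l
    · simpa using C.zero p
    · simpa using hb

theorem fe_inj {p a b : V} (he : S.e = 0) (hp : p ≠ 0) (ha : C S p a) (hb : C S p b)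
    (hab : ¬ C S a b) : Function.Injective (fe p a b) := by
  have saa := C.self he a
  have sbb := C.self he b
  rintro ⟨i, j, l⟩ ⟨i', j', l'⟩ h
  have key1 : ∀ i j l, C S a (fe p a b (i, j, l)) ↔ l = false := by
    intro i j l
    have h0 : C S a ((if i then p else 0) + (if j then a else 0)) := by
      apply C.add
      · cases i
        · simpa using C.zero a
        · simpa using ha.symm
      · cases j
        · simpa using C.zero a
        · simpa using saa
    constructor
    · intro h1
      cases l
      · rfl
      · exfalso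
        apply hab
        exact (h1.add h0).of_eq rfl (by
          unfold fe
          simp only [if_true]
          exact (eo (by abel_nf <;> simp only [ch2, ch3, ch4, ch5, ch6, add_zero, zero_add])))
    · rintro rfl
      unfold fe
      simpa using h0
  have key2 : ∀ i j l, C S b (fe p a b (i, j, l)) ↔ j = false := by
    intro i j l
    have h0 : C S b ((if i then p else 0) + (if l then b else 0)) := by
      apply C.add
      · cases i
        · simpa using C.zero b
        · simpa using hb.symm
      · cases l
        · simpa using C.zero b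
        · simpa using sbb
    constructor
    · intro h1
      cases j
      · rfl
      · exfalso
        apply hab
        exact (h1.add h0).symm.of_eq (by
          unfold fe
          simp only [if_true]
          exact (eo (by abel_nf <;> simp only [ch2, ch3, ch4, ch5, ch6, add_zero, zero_add]))) rfl
    · rintro rfl
      unfold fe
      simpa using h0
  have hl : l = l' := by
    have e1 := key1 i j l
    rw [h, key1 i' j' l'] at e1
    cases l <;> cases l' <;> simp_all
  have hj : j = j' := by
    have e1 := key2 i j l
    rw [h, key2 i' j' l'] at e1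
    cases j <;> cases j' <;> simp_all
  subst hl
  subst hj
  have hi : i = i' := by
    unfold fe at h
    have h1 := add_right_cancel (add_right_cancel h)
    cases i <;> cases i' <;> simp_all
  subst hi
  rfl

/-- a noncommutative `V_p` of order at most 8 is `<p, a, b>` for any noncommuting `a, b` -/
theorem gen_of_card {p a b : V} (he : S.e = 0) (hp : p ≠ 0) [Finite V]
    (h8 : Nat.card {x // C S p x} ≤ 8) (ha : C S p a) (hb : C S p b) (hab : ¬ C S a b)
    (x : V) (hx : C S p x) : In8 p a b x := by
  by_contra hno
  have hpp := C.self he p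
  let f : Option (Bool × Bool × Bool) → {x // C S p x} := fun t =>
    match t with
    | none => ⟨x, hx⟩
    | some t => ⟨fe p a b t, fe_mem hpp ha hb t⟩
  have hne : ∀ t, fe p a b t ≠ x := by
    rintro ⟨i, j, l⟩ h
    apply hno
    rw [← h]
    unfold In8 fe
    cases i <;> cases j <;> cases l <;> simp [add_comm, add_left_comm]
  have hf : Function.Injective f := by
    intro s t hst
    cases s with
    | none =>
      cases t with
      | none => rfl
      | some t => exact absurd (congrArg Subtype.val hst).symm (hne t)
    | some s =>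
      cases t with
      | none => exact absurd (congrArg Subtype.val hst) (hne s)
      | some t => rw [fe_inj he hp ha hb hab (congrArg Subtype.val hst)]
  have h1 := Nat.card_le_card_of_injective f hf
  have h2 : Nat.card (Option (Bool × Bool × Bool)) = 9 := by
    rw [Nat.card_eq_fintype_card]
    decide
  omega

theorem val8 {p a b x y : V} (he : S.e = 0) (ha : C S p a) (hb : C S p b)
    (hx : In8 p a b x) (hy : In8 p a b y) : C S x y ∨ S.q x y = S.q a b := by
  have hpp := C.self he p
  have saa := C.self he a
  have sbb := C.self he b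
  -- reduce modulo `p`
  have red : ∀ x, In8 p a b x → ∃ x', (x' = 0 ∨ x' = a ∨ x' = b ∨ x' = a + b) ∧
      (x = x' ∨ x = x' + p) := by
    intro x hx
    rcases hx with h | h | h | h | h | h | h | h
    · exact ⟨0, Or.inl rfl, Or.inl h⟩
    · exact ⟨0, Or.inl rfl, Or.inr (by rw [h, zero_add])⟩
    · exact ⟨a, Or.inr (Or.inl rfl), Or.inl h⟩
    · exact ⟨a, Or.inr (Or.inl rfl), Or.inr h⟩
    · exact ⟨b, Or.inr (Or.inr (Or.inl rfl)), Or.inl h⟩
    · exact ⟨b, Or.inr (Or.inr (Or.inl rfl)), Or.inr h⟩
    · exact ⟨a + b, Or.inr (Or.inr (Or.inr rfl)), Or.inl h⟩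
    · exact ⟨a + b, Or.inr (Or.inr (Or.inr rfl)), Or.inr h⟩
  obtain ⟨x', hx', ex⟩ := red x hx
  obtain ⟨y', hy', ey⟩ := red y hy
  have pE : ∀ y', (y' = 0 ∨ y' = a ∨ y' = b ∨ y' = a + b) → C S p y' := by
    rintro y' (h | h | h | h)
    · exact (C.zero p).of_eq rfl h.symm
    · exact ha.of_eq rfl h.symm
    · exact hb.of_eq rfl h.symm
    · exact (ha.add hb).of_eq rfl h.symm
  have px := pE x' hx'
  have py := pE y' hy'
  have e1 : S.q x y = S.q x' y := by
    rcases ex with h | h
    · rw [h]
    · apply q_eq'
      rcases ey with h' | h'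
      · exact py.of_eq (by rw [h]; exact (eo (by abel_nf <;> simp only [ch2, ch3, ch4, ch5, ch6, add_zero, zero_add]))) h'.symm
      · exact (py.add hpp).of_eq (by rw [h]; exact (eo (by abel_nf <;> simp only [ch2, ch3, ch4, ch5, ch6, add_zero, zero_add]))) h'.symm
  have e2 : S.q x' y = S.q x' y' := by
    rcases ey with h | h
    · rw [h]
    · apply q_eq
      exact px.symm.of_eq rfl (by rw [h]; exact (eo (by abel_nf <;> simp only [ch2, ch3, ch4, ch5, ch6, add_zero, zero_add])))
  have e3 : S.q x y = S.q x' y' := e1.trans e2
  have e4 : C S x y ↔ C S x' y' := by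
    unfold C
    rw [e3]
  rw [e4, e3]
  rcases hx' with h | h | h | h <;> rcases hy' with h' | h' | h' | h' <;> rw [h, h']
  · left; exact C.zero _
  · left; exact C.zero' _
  · left; exact C.zero' _
  · left; exact C.zero' _
  · left; exact C.zero _
  · left; exact saa
  · right; rfl
  · right; exact q_eq (saa.of_eq rfl (eo (by abel_nf <;> simp only [ch2, ch3, ch4, ch5, ch6, add_zero, zero_add])))
  · left; exact C.zero _
  · right; exact S.symm _ _
  · left; exact sbb
  · right; rw [S.symm a]; exact q_eq (sbb.of_eq rfl (eo (by abel_nf <;> simp only [ch2, ch3, ch4, ch5, ch6, add_zero, zero_add])))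
  · left; exact C.zero _
  · right; rw [S.symm]; exact q_eq (saa.of_eq rfl (eo (by abel_nf <;> simp only [ch2, ch3, ch4, ch5, ch6, add_zero, zero_add])))
  · right; exact q_eq' (sbb.of_eq (eo (by abel_nf <;> simp only [ch2, ch3, ch4, ch5, ch6, add_zero, zero_add])) rfl)
  · left; exact C.self he _

theorem eight_of_card {p g h : V} (he : S.e = 0) (hp : p ≠ 0) [Finite V]
    (h8 : Nat.card {x // C S p x} ≤ 8) (hg : C S p g) (hh : C S p h)
    (hirr : ∀ t, S.q p t ≠ S.q g h) : Eight S p := by
  have hgh : ¬ C S g h := by
    intro h'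
    apply hirr 0
    rw [show S.q p 0 = S.z from C.zero p, show S.q g h = S.z from h']
  refine ⟨he, hp, fun a b ha hb hab x hx => gen_of_card he hp h8 ha hb hab x hx, ?_⟩
  intro a b ha hb hab t
  have ia := gen_of_card he hp h8 hg hh hgh a ha
  have ib := gen_of_card he hp h8 hg hh hgh b hb
  rcases val8 he hg hh ia ib with h1 | h1
  · exact absurd h1 hab
  · rw [h1]
    exact hirr t

/-- **Theorem** (data version).  If `V_p` has order at most 8 and `q (g, h)` is not a value of
`q (p, .)` for some `g, h` in `V_p`, then some `V_e`, `e ≠ 0`, is commutative. -/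
theorem comm_of_card {p g h : V} (he : S.e = 0) (hp : p ≠ 0) [Finite V]
    (h8 : Nat.card {x // C S p x} ≤ 8) (hg : C S p g) (hh : C S p h)
    (hirr : ∀ t, S.q p t ≠ S.q g h) :
    ∃ e, e ≠ 0 ∧ ∀ x y, C S e x → C S e y → C S x y := by
  have hgh : ¬ C S g h := by
    intro h'
    apply hirr 0
    rw [show S.q p 0 = S.z from C.zero p, show S.q g h = S.z from h']
  have X := eight_of_card he hp h8 hg hh hirr
  obtain ⟨e, h1, h2, h3, h4⟩ := X.exists_small hg hh hgh
  refine ⟨e, h2, ?_⟩
  have hpp := C.self he p
  have see := C.self he e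
  -- `e` does not commute with some `k` in `E`
  obtain ⟨k, hk, hek⟩ : ∃ k, C S p k ∧ ¬ C S e k := by
    by_contra hno
    push Not at hno
    have ie := X.gen g h hg hh hgh e h1
    rcases ie with h' | h' | h' | h' | h' | h' | h' | h'
    · exact h2 h'
    · exact h3 h'
    · exact hgh ((hno h hh).of_eq h' rfl)
    · exact hgh (((hno h hh).add' hh).of_eq (by rw [h']; exact (eo (by abel_nf <;> simp only [ch2, ch3, ch4, ch5, ch6, add_zero, zero_add]))) rfl)
    · exact hgh ((hno g hg).symm.of_eq rfl h')
    · exact hgh (((hno g hg).add' hg).symm.of_eq rfl (by rw [h']; exact (eo (by abel_nf <;> simp only [ch2, ch3, ch4, ch5, ch6, add_zero, zero_add]))))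
    · exact hgh (((hno h hh).add' (C.self he h)).of_eq (by rw [h']; exact (eo (by abel_nf <;> simp only [ch2, ch3, ch4, ch5, ch6, add_zero, zero_add]))) rfl)
    · exact hgh ((((hno h hh).add' hh).add' (C.self he h)).of_eq (by rw [h']; exact (eo (by abel_nf <;> simp only [ch2, ch3, ch4, ch5, ch6, add_zero, zero_add]))) rfl)
  -- `V_e = {0, p, e, e + p}`
  have four : ∀ x, C S e x → x = 0 ∨ x = p ∨ x = e ∨ x = e + p := by
    intro x hx
    have hxp := h4 x hx
    rcases X.gen e k h1 hk hek x hxp with h' | h' | h' | h' | h' | h' | h' | h'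
    · exact Or.inl h'
    · exact Or.inr (Or.inl h')
    · exact Or.inr (Or.inr (Or.inl h'))
    · exact Or.inr (Or.inr (Or.inr h'))
    · exact absurd (hx.of_eq rfl h') hek
    · exact absurd ((hx.add h1.symm).of_eq rfl (by rw [h']; exact (eo (by abel_nf <;> simp only [ch2, ch3, ch4, ch5, ch6, add_zero, zero_add])))) hek
    · exact absurd ((hx.add see).of_eq rfl (by rw [h']; exact (eo (by abel_nf <;> simp only [ch2, ch3, ch4, ch5, ch6, add_zero, zero_add])))) hek
    · exact absurd (((hx.add see).add h1.symm).of_eq rfl (by rw [h']; exact (eo (by abel_nf <;> simp only [ch2, ch3, ch4, ch5, ch6, add_zero, zero_add])))) hek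
  have pE : ∀ x, (x = 0 ∨ x = p ∨ x = e ∨ x = e + p) → C S p x := by
    rintro x (h' | h' | h' | h')
    · exact (C.zero p).of_eq rfl h'.symm
    · exact hpp.of_eq rfl h'.symm
    · exact h1.of_eq rfl h'.symm
    · exact (h1.add hpp).of_eq rfl h'.symm
  intro x y hx hy
  have px := pE x (four x hx)
  rcases four y hy with h' | h' | h' | h'
  · exact (C.zero x).of_eq rfl h'.symm
  · exact px.symm.of_eq rfl h'.symm
  · exact hx.symm.of_eq rfl h'.symm
  · exact (hx.symm.add px.symm).of_eq rfl h'.symm

open QS in
/-- **Theorem.** A finite quaternionic structure with `-1 = 1` with an element `p ≠ 1` such that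
`V_p` has order at most 8 and `q (g, h)` is not in `Q_p` for some `g, h` in `V_p`, is a group
extension or a direct product of two nontrivial structures. -/
theorem irregular8 (S : QStruct) [Finite S.G] (hneg : S.neg = 1) {p : S.G} (hp : p ≠ 1)
    (h8 : Nat.card {x // S.q p x = S.zero} ≤ 8) {g h : S.G} (hg : S.q p g = S.zero)
    (hh : S.q p h = S.zero) (hirr : ∀ t, S.q p t ≠ S.q g h) :
    (∃ T : QStruct, Iso S (ext T)) ∨ Decomp S := by
  classical
  let D : QData (Additive S.G) S.Q := ETC.toData S
  have he : D.e = 0 := by
    show Additive.ofMul S.neg = 0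
    rw [hneg]; rfl
  have hfin : Finite (Additive S.G) := (inferInstance : Finite S.G)
  obtain ⟨e, h1, h2⟩ := comm_of_card (S := D) (p := Additive.ofMul p) (g := Additive.ofMul g)
    (h := Additive.ofMul h) he (fun h => hp h) h8 hg hh (fun t => hirr (Additive.toMul t))
  exact ETCF.comm_case S hneg (p := Additive.toMul e) (fun h => h1 h)
    (fun a b ha hb => h2 (Additive.ofMul a) (Additive.ofMul b) ha hb)

end Pool.Agent.ETCI
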